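import Pool.Agent.helper73.SHL.AsmS
import Pool.Agent.helper54.UG.Asm
import Pool.Agent.helper54.UG.Abs
import Pool.Agent.helper24.PR.Z_UNIP
import Pool.Agent.helper23.PR.N_UNI
import Pool.Agent.helper71.PR.N_FIT
import Pool.Agent.helper91.PR.N_RES
import Pool.Agent.helper57.NH.UST
import Pool.Agent.helper82.NH.FLG
import Pool.Agent.helper71.NH.NCL
import Pool.Agent.helper23.NH.NPB
import Pool.Agent.helper5.NH.GVF
import Pool.Agent.helper58.NH.UBD
import Pool.Agent.helper51.NH.SVH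
import Pool.Agent.helper75.NH.NVH

/-!
# Project nh: assembly
-/

set_option autoImplicit false

namespace Pool.Agent.NH

open Matrix Module Pool.Agent.PR Pool.Agent.SHL

theorem tUST : UST_stmt := UST HA HB HD Pool.Agent.UG.KOT

theorem tFLG : FLG_stmt := FLG HA HB tSTR tTOR

theorem tNCL : NCL_stmt := NCL (N_FIT N_RES) N_RES

theorem tNPB : NPB_stmt := NPB HA HB sMAL (Z_UNIP N_UNI) tNCL tFLG

theorem tGVF : GVF_stmt := GVF Pool.Agent.UG.tG0 Pool.Agent.UG.tKOL Pool.Agent.UG.tMAL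
  Pool.Agent.UG.EXJ Pool.Agent.UG.TRP

theorem tUBD : UBD_stmt := UBD HA tUST tGVF

theorem tSVH : SVH_stmt := SVH HA tFLG tUBD

theorem tNVH : NVH_stmt := NVH HA tNPB tUBD

end Pool.Agent.NH
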