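import Mathlib
import Pool.Agent.helper73.SHL.Spec
import Pool.Agent.helper54.UG.Spec

/-!
# Project nh (MP_a2a22c_al): Hirsch lengths of nilpotent and solvable subgroups

FINAL: `n ≥ 3`, `G` finitely generated, residually finite, with the same finite quotients as `SL(n, ℤ)`, not
isomorphic to `SL(n, ℤ)`. Then every nilpotent subgroup of `G` has Hirsch length `≤ n - 1` and every solvable subgroup
has Hirsch length `≤ 2 n - 4`. The same for Zariski dense subgroups of infinite index of `SL(n, ℤ)`.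

Row `nh:XX` proves `theorem XX (hYY : YY_stmt) ... : XX_stmt` (the hypotheses are in its row) in
`Pool/Agent/<seat>/NH/XX.lean`, `import Pool.Agent.helper73.NH.Spec`, namespace `Pool.Agent.NH`, auxiliary
lemmas with the prefix `XX_`. `Hi`, `HA_stmt`, `HB_stmt`, `HD_stmt`, `TOR_stmt`, `STR_stmt` are in `Pool/Agent/helper73/SHL/Spec.lean`
(proved), `Z_MAL_stmt`, `Z_UNIP_stmt`, `N_FIT_stmt`, `N_RES_stmt`, `TriS`, `InvS`, `resS`, `quoS` in `Pool.Agent.PR` (proved), `G0_stmt`,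
`KOT_stmt`, `KOL_stmt`, `MAL_stmt`, `EXJ_stmt`, `TRP_stmt` in `Pool.Agent.UG` (helper54). `UG.qg g` and `stdM ℚ g` are definitionally equal.
-/

set_option autoImplicit false

namespace Pool.Agent.NH

open Matrix Module Pool.Agent.PR Pool.Agent.SHL

/-- **UST** (from HA, HB, HD, `UG.KOT_stmt`; stabilisers in unipotent groups). Induction on `dim M` (for all `V`, `U`, `N`). `M = 0`: `U' = U`. Let `M ≠ 0`.
`M` is stable under `U`; Kolchin's theorem (from KOT, see `KOL_fix` in `Pool/Agent/helper41/UG/KOL.lean`; it may be imported) for the action of the group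
`U` on `M`: `0 ≠ m₀ ∈ M` with `ρ u m₀ = m₀` for all `u ∈ U`. Induction hypothesis for `V ⧸ ⟨m₀⟩`, the image of `M` (dimension one less), `N + 1`:
`U₁ ≤ U`, `Hi (N + 1) U₁`, `ρ u v - v = c u • m₀` for `u ∈ U₁`. `c (u u') = c u + c u'`. HB for `c : U₁ →* Multiplicative ℚ`: `N + 1 = a + b`,
`Hi a` for the kernel (the `u ∈ U₁` with `ρ u v = v`), `Hi b` for the range in `Multiplicative ℚ`, `b ≤ 1` by HD (`W = ℚ`). HA (2), (6) (and (1)). -/
def UST_stmt : Prop := ∀ (V : Type) [AddCommGroup V] [Module ℚ V] [FiniteDimensional ℚ V] (Q : Type) [Group Q]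
  (ρ : Q →* Module.End ℚ V) (U : Subgroup Q) (M : Submodule ℚ V), (∀ u ∈ U, IsNilpotent (ρ u - 1)) →
  (∀ u ∈ U, ∀ v, ρ u v - v ∈ M) → ∀ N : ℕ, Hi (N + finrank ℚ M) U → ∀ v : V,
  ∃ U' : Subgroup Q, U' ≤ U ∧ (∀ u ∈ U', ρ u v = v) ∧ Hi N U'

/-- **FLG** (from STR, TOR, HA, HB; the composition factors of a solvable group, `k` is their number). Induction on `dim V` (for all `Q`, `ρ`, `N`). STR for
`D = ℚ`: `G₁`, `L₀`, minimal and commutative; `e = dim L₀`. `λ : G₁ →* (End L₀)ˣ` (`MonoidHom.toHomUnits`), `Hi N ⊤` for the group `G₁` (HA (3), (6)), HB: `N = a' + c`, `Hi a'` for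
`K = ker λ`, `Hi c` for `λ.range`, and `c + 1 ≤ e` by TOR (`D = ℚ`, `d = 1`; the group `λ.range` acts injectively, commutatively, irreducibly, integrally on `L₀`; compare
`Pool/Agent/helper79/SHL/STP.lean`). If `L₀ = V`: `U = K`, `a = a'`, `b = c`, `k = 1`, `L = ⊤`, `M = ⊥`. Otherwise the group `K` acts on `V ⧸ L₀` (not trivial);
induction: `U'`, `a`, `b'`, `k'`, `L'`, `M'` with `a + b' = a'`, `b' + k' ≤ dim V - e`. `U = U'` (mapped to `Q`), `b = b' + c`, `k = k' + 1`, `L = L₀`, `M` = the preimage of `M'`: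
`(ρ u - 1) V ⊆ M`; `ρ u - 1` is `0` on `L₀` and nilpotent on `V ⧸ L₀`, so it is nilpotent. `k = 2` means `k' = 1`, `M' = ⊥`, `M = L₀`. -/
def FLG_stmt : Prop := ∀ (V : Type) [AddCommGroup V] [Module ℚ V] [FiniteDimensional ℚ V] [Nontrivial V] (Q : Type)
    [Group Q], Group.IsSolvable Q → ∀ ρ : Q →* Module.End ℚ V, (∀ g, IsIntegral ℤ (ρ g)) → ∀ N : ℕ,
    Hi N (⊤ : Subgroup Q) →
  ∃ (U : Subgroup Q) (a b k : ℕ) (L M : Submodule ℚ V), (∀ u ∈ U, IsNilpotent (ρ u - 1)) ∧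
    (∀ u ∈ U, ∀ w ∈ L, ρ u w = w) ∧ (∀ u ∈ U, ∀ v, ρ u v - v ∈ M) ∧ L ≠ ⊥ ∧ M ≠ ⊤ ∧ Hi a U ∧
    a + b = N ∧ b + k ≤ finrank ℚ V ∧ 1 ≤ k ∧ (k = 1 → M = ⊥) ∧ (k = 2 → L = M)

/-- **NCL** (from `N_FIT_stmt`, `N_RES_stmt`). `I` = the span. Let `l` be an eigenvalue of `ρ g` and `E` its generalised eigenspace. `V` is the direct sum of the generalised eigenspaces of
`ρ g` (`Module.End.iSup_maxGenEigenspace_eq_top`, `Module.End.independent_maxGenEigenspace`), all invariant (N_FIT); `π : V → E` the projection, it commutes with all `ρ h`. `resS ρ E` is `TriS` (N_RES): let `W < E` be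
an invariant subspace of `E` of maximal dimension; `TriS` gives `v ∈ E`, `v ∉ W`, `ρ h v - c_h v ∈ W`; `W ⊔ K v` is invariant, so it is `E`. `c_u = 1` for `u ∈ U` (`(c_u - 1) ^ N v ∈ W` for large `N`), `c_g = l` in the same
way. The linear form `f : E → E ⧸ W ≅ K` satisfies `f (ρ u e) = f e` for `u ∈ U`, `f (ρ g e) = l f e`; `F = f ∘ π` vanishes on `I` and `F ((ρ g - 1) ^ k v) = (l - 1) ^ k F v`, `F ≠ 0`. First claim: `F ≠ 0` vanishes on `I`.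
Second claim: `(l - 1) ^ k F v = 0` for all `v`, so `l = 1` for every eigenvalue, and `ρ g - 1` is nilpotent (`K` is algebraically closed). -/
def NCL_stmt : Prop := ∀ (K V : Type) [Field K] [IsAlgClosed K] [AddCommGroup V] [Module K V]
  [FiniteDimensional K V] [Nontrivial V] (Q : Type) [Group Q], Group.IsNilpotent Q → ∀ ρ : Q →* Module.End K V,
  TriS ρ → ∀ U : Subgroup Q, (∀ u ∈ U, IsNilpotent (ρ u - 1)) →
  Submodule.span K {w | ∃ u ∈ U, ∃ v, w = ρ u v - v} ≠ ⊤ ∧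
  ∀ (g : Q) (k : ℕ), (∀ v, ((ρ g - 1) ^ k) v ∈ Submodule.span K {w | ∃ u ∈ U, ∃ v, w = ρ u v - v}) →
    IsNilpotent (ρ g - 1)

/-- **NPB** (from `Z_MAL_stmt`, `Z_UNIP_stmt`, NCL, FLG, HA, HB; nilpotent groups). `K = AlgebraicClosure ℚ`, `ρ_K g = (ρ g).baseChange K`; Z-MAL: `G₁` of finite index with `TriS`. Z-UNIP for `G₁`: `U₀`, normal in `G₁`, consists of the
`g ∈ G₁` with `ρ_K g - 1` nilpotent, that is, `ρ g - 1` nilpotent. `M` = the `ℚ`-span of the `ρ u v - v`, `u ∈ U₀`; stable under `G₁`: `g (u v - v) = (g u g⁻¹) (g v) - g v`. Its image `1 ⊗ M` is in the `K`-span `I` of the `ρ_K u v - v`, which is spanned over `K` by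
the `1 ⊗ m`, `m ∈ M`; `I ≠ ⊤` (NCL), so `M ≠ ⊤`. `μ : G₁ →* (End (V ⧸ M))ˣ`. (*) If `μ g - 1` is nilpotent then `g ∈ U₀`: `(ρ g - 1) ^ k V ⊆ M`, `(ρ_K g - 1) ^ k V_K ⊆ I`, NCL (the group `G₁` is nilpotent). `Hi N ⊤` for the group `G₁` (HA (3), (6)); HB for `μ`:
`N = a + b`, `Hi a (ker μ)`, `Hi b (μ.range)`. `U` = the image of `ker μ` in `Q`: unipotent by (*), `(ρ u - 1) V ⊆ M`. FLG for the group `μ.range` (nilpotent, so solvable; integral) on `V ⧸ M` (not trivial): `U'`, `a'`, `b'`, `k ≥ 1`, `b' + k ≤ dim V - dim M`; by (*) the elements of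
`U'` are `1` (`U₀` acts trivially on `V ⧸ M`), so `a' = 0` (HA (4)), `b = b'`. -/
def NPB_stmt : Prop := ∀ (V : Type) [AddCommGroup V] [Module ℚ V] [FiniteDimensional ℚ V] [Nontrivial V] (Q : Type)
    [Group Q], Group.IsNilpotent Q → ∀ ρ : Q →* Module.End ℚ V, Function.Injective ρ →
    (∀ g, IsIntegral ℤ (ρ g)) → ∀ N : ℕ, Hi N (⊤ : Subgroup Q) →
  ∃ (U : Subgroup Q) (M : Submodule ℚ V) (a b : ℕ), (∀ u ∈ U, IsNilpotent (ρ u - 1)) ∧
    (∀ u ∈ U, ∀ v, ρ u v - v ∈ M) ∧ Hi a U ∧ a + b = N ∧ b + finrank ℚ M + 1 ≤ finrank ℚ V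

/-- **GVF** (from `UG.G0_stmt`, `UG.KOL_stmt`, `UG.MAL_stmt`, `UG.EXJ_stmt`, `UG.TRP_stmt`; Theorem G for groups). First alternative: KOL, MAL give `𝔞` with `ANil`, `Lat H 𝔞` (`A ≤ H`). `Star 𝔞`: for `v` take `a ∈ A`, `a ≠ 1`, `a v = v`;
`qg a = exp X`, `X ∈ 𝔞`; `X v = 0` by EXJ (b), `X ≠ 0` since `a ≠ 1` (`exp 0 = 1`, `qg` is injective). G0. Second alternative: `H'` from TRP, `A' = {a : aᵀ ∈ A}` (a subgroup: `(a b)ᵀ = bᵀ aᵀ`), `A' ≤ H'`, unipotent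
(`(X ^ k)ᵀ = (Xᵀ) ^ k`), and `v ᵥ* a = aᵀ *ᵥ v`: the first alternative for `H'`, `A'`. -/
def GVF_stmt : Prop := ∀ (n : ℕ), 3 ≤ n → ∀ H A : Subgroup (Pool.Agent.PR.SLZ n), Pool.Agent.H48SL.ZDense H → A ≤ H →
  (∀ a ∈ A, IsNilpotent (stdM ℚ a - 1)) →
  ((∀ v : Fin n → ℚ, ∃ a ∈ A, a ≠ 1 ∧ stdM ℚ a *ᵥ v = v) ∨
    (∀ v : Fin n → ℚ, ∃ a ∈ A, a ≠ 1 ∧ v ᵥ* stdM ℚ a = v)) → H.FiniteIndex

/-- **UBD** (from UST, GVF; unipotent subgroups of `H`). `ρ : P →* End ℚⁿ`. First claim: if `dim M < a` then (HA (2)) `Hi (1 + dim M) U`, by UST every `v` is fixed by a subgroup `U' ≤ U` with `Hi 1 U'`, which has an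
element of infinite order (`K ≤ L ≤ U'`, `g ∈ L`, `g ^ j ∉ K`, so `g ^ j ≠ 1`; it is `≠ 1`): GVF, first alternative, for `A` = the image of `U` in `SLZ n`. Second claim: UST for the action of `P` on `Fin n → ℚ` by `w ↦ w ᵥ* g⁻¹` (transpose), `M' = {w : w ⬝ᵥ l = 0 for all l ∈ L}`, of
dimension `n - dim L` (for example `Submodule.finrank_add_finrank_dualAnnihilator_eq` or `Subspace.finrank_add_finrank_dualCoannihilator_eq`, or rank-nullity): `(w ᵥ* u⁻¹ - w) ⬝ᵥ l = w ⬝ᵥ (u⁻¹ l - l) = 0`. If `n < dim L + a`: `Hi (1 + dim M') U`, every `w` is fixed by some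
`u ≠ 1` (`w ᵥ* u⁻¹ = w`): GVF, second alternative. -/
def UBD_stmt : Prop := ∀ (n : ℕ), 3 ≤ n → ∀ H P : Subgroup (Pool.Agent.PR.SLZ n), Pool.Agent.H48SL.ZDense H → P ≤ H →
  ¬ H.FiniteIndex → ∀ (U : Subgroup P) (a : ℕ), Hi a U → (∀ u ∈ U, IsNilpotent (stdM ℚ (u : Pool.Agent.PR.SLZ n) - 1)) →
  (∀ M : Submodule ℚ (Fin n → ℚ), (∀ u ∈ U, ∀ v, stdM ℚ (u : Pool.Agent.PR.SLZ n) *ᵥ v - v ∈ M) → a ≤ finrank ℚ M) ∧
  (∀ L : Submodule ℚ (Fin n → ℚ), (∀ u ∈ U, ∀ v ∈ L, stdM ℚ (u : Pool.Agent.PR.SLZ n) *ᵥ v = v) → a + finrank ℚ L ≤ n)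

/-- **SVH** (from FLG, UBD; solvable subgroups). Suppose that `H` has infinite index. `V = Fin n → ℚ`, `Q = P`, `ρ g = toLin' (stdM ℚ g)`, integral (Cayley-Hamilton for the integer matrix; `Matrix.isIntegral`). HA (2): `Hi (2 n - 3) P`; `Hi` for `⊤` (HA (6)).
FLG, UBD: `a ≤ dim M`, `a ≤ n - dim L`, `b ≤ n - k`. `k = 1`: `a = 0`, `b ≤ n - 1`. `k = 2`: `2 a ≤ n`, `b ≤ n - 2`. `k ≥ 3`: `a ≤ n - 1`, `b ≤ n - 3`. In all cases `a + b ≤ 2 n - 4`. -/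
def SVH_stmt : Prop := ∀ (n : ℕ), 3 ≤ n → ∀ H P : Subgroup (Pool.Agent.PR.SLZ n), Pool.Agent.H48SL.ZDense H → P ≤ H →
  Group.IsSolvable P → ∀ N : ℕ, 2 * n ≤ N + 3 → Hi N P → H.FiniteIndex

/-- **NVH** (from NPB, UBD; nilpotent subgroups). As SVH, with NPB: `a ≤ dim M`, `b + dim M + 1 ≤ n`, so `a + b ≤ n - 1`. -/
def NVH_stmt : Prop := ∀ (n : ℕ), 3 ≤ n → ∀ H P : Subgroup (Pool.Agent.PR.SLZ n), Pool.Agent.H48SL.ZDense H → P ≤ H →
  Group.IsNilpotent P → ∀ N : ℕ, n ≤ N → Hi N P → H.FiniteIndex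

end Pool.Agent.NH
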